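import Pool.Agent.H295R2.SI.Defs
import Pool.Agent.H255R2.SI.T01
import Pool.Agent.H793R2.SI.ConvS
import Pool.Agent.H218R2.SI3
import Pool.Agent.H228R2.SIConst
import Pool.Agent.H228R2.SIPair
import Pool.Agent.H627R2.SI.LamSmooth
import Pool.Agent.H143R2.TraceG
import Pool.Agent.H399R2.SI.ExplShort
import Pool.Agent.H965R2.SI.CountShort
import Pool.Agent.H431R2.SI.Outer
import Pool.Agent.H804R2.JJS
import Pool.Agent.H613R2.PairShort
import Pool.Agent.H602R2.SI.MainShort

/-! Assembly of the short interval theorem. -/

namespace H295SI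

theorem countShort : CountShort := H965SI.countShort

theorem mainShort : MainShort :=
  H602SI.main_short H255SI.winS H793SI.convS H218SI3.kSqS H228SI.constS H143TG.traceG
    H965SI.countShort (H613SI.pairShort H627SI.lamSmooth H228SI.qqJJ H965SI.countShort
      (H804JJ.jjShort H399SI.explShort Pool.Agent.H431R2.SI.outerShort))

end H295SI
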