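import Pool.Agent.H370R2.PC3
import Pool.Agent.H370R2.Count
import Pool.Agent.H370R2.Trace

/-!
Short interval version of the unconditional Montgomery-Taylor theorem: statements of the tasks.
Everything is stated for a window `g` on `[-1/2,1/2]` with self-convolution `R`.
-/

open Complex Filter Topology Set MeasureTheory

namespace H295SI

open H370

/-- Fourier-Laplace transform of the window -/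
noncomputable def kapG (g : ℝ → ℝ) (z : ℂ) : ℂ :=
  ∫ x in (-1 / 2 : ℝ)..(1 / 2), (g x : ℂ) * cexp (I * z * x)

/-- the kernel at scale `Λ` with Gaussian damping -/
noncomputable def phiG (g : ℝ → ℝ) (Λ : ℝ) (z : ℂ) : ℂ := kapG g (Λ * z) * cexp (-z ^ 2 / 8)

/-- the pair sum over zeros -/
noncomputable def QQG (g : ℝ → ℝ) (F : ℂ → ℂ) (Λ U1 U2 : ℝ) : ℝ :=
  (∑ᶠ s ∈ zset F U1 U2, ∑ᶠ s' ∈ zset F U1 U2,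
    (mult F s : ℂ) * (mult F s' : ℂ) * (phiG g Λ (zz s - zz s')) ^ 2).re

/-- basic properties of the window (no statement about `R`) -/
structure Win (g : ℝ → ℝ) : Prop where
  cont : Continuous g
  nonneg : ∀ x, -1 / 2 ≤ x → x ≤ 1 / 2 → 0 ≤ g x
  even : ∀ x, g (-x) = g x
  mass : ∫ x in (-1 / 2 : ℝ)..(1 / 2), g x = 1

/-- basic properties of the self-convolution -/
structure Conv (R : ℝ → ℝ) : Prop where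
  nonneg : ∀ α, 0 ≤ R α
  anti : AntitoneOn R (Set.Ici 0)
  lip : ∃ K : ℝ, 0 < K ∧ ∀ x y, |R x - R y| ≤ K * |x - y|
  even : ∀ α, R (-α) = R α
  zero : ∀ α, 1 < α → R α = 0

/-- the square of the transform of `g` is the transform of `R` -/
def KSq (g R : ℝ → ℝ) : Prop :=
  ∀ z : ℂ, kapG g z ^ 2 = ∫ α in (-1 : ℝ)..1, (R α : ℂ) * cexp (I * z * α)

/-- the constant attained by `R` at support `h` -/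
noncomputable def cR (R : ℝ → ℝ) (h : ℝ) : ℝ := R 0 / h + 2 * h * ∫ α in (0 : ℝ)..1, α * R α

/-- window with parameter `s` (`s = √2 h` is optimal) -/
noncomputable def gS (s x : ℝ) : ℝ := s * Real.cos (s * x) / (2 * Real.sin (s / 2))

/-- its self-convolution -/
noncomputable def RS (s α : ℝ) : ℝ :=
  if |α| ≤ 1 then
    ((1 - |α|) * Real.cos (s * |α|) + Real.sin (s * (1 - |α|)) / s)
      * (s ^ 2 / (8 * Real.sin (s / 2) ^ 2))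
  else 0

/-- the short interval Montgomery-Taylor constant -/
noncomputable def cc (h : ℝ) : ℝ := h / 2 + Real.cot (h / Real.sqrt 2) / Real.sqrt 2

/-! ### the tasks -/

/-- T01 -/
def WinS : Prop := ∀ s : ℝ, 0 < s → s ≤ Real.sqrt 2 → Win (gS s)

/-- T02 -/
def ConvS : Prop := ∀ s : ℝ, 0 < s → s ≤ Real.sqrt 2 → Conv (RS s)

/-- T03 -/
def KSqS : Prop := ∀ s : ℝ, 0 < s → s ≤ Real.sqrt 2 → KSq (gS s) (RS s)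

/-- T04 -/
def ConstS : Prop := ∀ h : ℝ, 0 < h → h ≤ 1 → cR (RS (Real.sqrt 2 * h)) h = cc h

/-- T05 -/
def LamSmooth : Prop := ∀ R : ℝ → ℝ, Conv R → ∃ C : ℝ, 0 < C ∧ ∀ Λ : ℝ, 1 ≤ Λ →
    ∫ u in (0 : ℝ)..Λ, R (u / Λ) * VV u ≤
      Real.sqrt Real.pi * Λ ^ 2 * (∫ α in (0 : ℝ)..1, α * R α) + C * Λ

/-- T06 -/
def QQJJ : Prop := ∀ g R : ℝ → ℝ, Win g → Conv R → KSq g R → ∀ F : ℂ → ℂ, GoodL F →
  ∀ U1 U2 : ℝ, 1 ≤ U1 → ∀ Λ : ℝ, QQG g F Λ U1 U2 =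
    2 / Real.sqrt Real.pi * ∫ α in (0 : ℝ)..1, R α * JJ F U1 U2 (Λ * α)

/-- T07 -/
def TraceG : Prop := ∀ g : ℝ → ℝ, Win g → ∀ F : ℂ → ℂ, GoodL F →
  ∀ U1 U2 : ℝ, 1 ≤ U1 → ∀ Λ : ℝ,
    2 * (NN F U1 U2 : ℝ) - QQG g F Λ U1 U2 ≤ Ns F U1 U2 ∧
    3 * (NN F U1 U2 : ℝ) - QQG g F Λ U1 U2 ≤ 2 * Nd F U1 U2

/-- T08 -/
def ExplShort : Prop := ∀ F : ℂ → ℂ, GoodL F →
    ∃ a : ℕ → ℂ, (∀ n, ‖a n‖ ≤ ArithmeticFunction.vonMangoldt n) ∧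
    ∃ C T0 : ℝ, 0 < C ∧ 10 ≤ T0 ∧ ∀ T : ℝ, T0 ≤ T → ∀ H : ℝ, 3 ≤ H → H ≤ T →
    ∃ U1 U2 : ℝ, T ≤ U1 ∧ U1 ≤ T + 1 ∧ T + H - 1 ≤ U2 ∧ U2 ≤ T + H ∧
      ∀ u t : ℝ, 0 ≤ u → u ≤ Real.log T → T + Real.log T ≤ t → t ≤ T + H - Real.log T →
        ‖AA F U1 U2 u t -
          (1 / Real.sqrt (2 * Real.pi) : ℝ) * (Real.log T * cexp (I * u * t) *
              Real.exp (-u ^ 2 / 2) - PP a u t)‖ ≤ C * Real.exp (-u)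

/-- T09 -/
def CountShort : Prop := ∀ F : ℂ → ℂ, GoodL F →
    ∃ C : ℝ, 0 < C ∧ ∀ T : ℝ, 10 ≤ T → ∀ H : ℝ, 3 ≤ H → H ≤ T → ∀ U1 U2 : ℝ, T ≤ U1 → U1 ≤ T + 1 →
      T + H - 1 ≤ U2 → U2 ≤ T + H →
      |(NN F U1 U2 : ℝ) - H * Real.log T / (2 * Real.pi)| ≤ C * (H + (Real.log T) ^ 2) ∧
      (NN F T (T + H) : ℝ) ≤ NN F U1 U2 + C * Real.log T

/-- T10 -/
def OuterShort : Prop := ∀ F : ℂ → ℂ, GoodL F →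
    ∃ C T1 : ℝ, 0 < C ∧ 4 ≤ T1 ∧ ∀ T : ℝ, T1 ≤ T → ∀ H : ℝ, 3 ≤ H → H ≤ T →
      ∀ U1 U2 : ℝ, T ≤ U1 → U2 ≤ T + H → ∀ u : ℝ, 0 ≤ u →
    ∫ t in (Set.Icc (T + Real.log T) (T + H - Real.log T))ᶜ, ‖AA F U1 U2 u t‖ ^ 2 ≤
      C * Real.exp u * (Real.log T) ^ 3

/-- T11 -/
def JJShort : Prop := ∀ F : ℂ → ℂ, GoodL F → ∀ h ε η : ℝ, 0 < ε → ε < h → h ≤ 1 → 0 < η →
    ∃ K1 K2 T0 : ℝ, 0 < K1 ∧ 0 < K2 ∧ 10 ≤ T0 ∧ ∀ T : ℝ, T0 ≤ T → ∀ H : ℝ, T ^ h ≤ H → H ≤ T →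
    ∃ U1 U2 : ℝ, T ≤ U1 ∧ U1 ≤ T + 1 ∧ T + H - 1 ≤ U2 ∧ U2 ≤ T + H ∧
      ∀ u : ℝ, 0 ≤ u → u ≤ (h - ε) * Real.log T →
      JJ F U1 U2 u ≤ (1 + η) / (2 * Real.pi) * (H * (Real.log T) ^ 2 * Real.exp (-u ^ 2) +
        K1 * (H * Real.log T) * Real.exp (2 * u - u ^ 2 / 2) + (1 + η) ^ 2 * H * VV u) +
        K2 * H

/-- T12 -/
def PairShort : Prop := ∀ g R : ℝ → ℝ, Win g → Conv R → KSq g R → ∀ F : ℂ → ℂ, GoodL F →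
    ∀ h ε η : ℝ, 0 < ε → ε < h → h ≤ 1 → 0 < η →
    ∃ T0 : ℝ, 10 ≤ T0 ∧ ∀ T : ℝ, T0 ≤ T → ∀ H : ℝ, T ^ h ≤ H → H ≤ T →
    ∃ U1 U2 : ℝ, T ≤ U1 ∧ U1 ≤ T + 1 ∧ T + H - 1 ≤ U2 ∧ U2 ≤ T + H ∧
      |(NN F U1 U2 : ℝ) - H * Real.log T / (2 * Real.pi)| ≤ η * (H * Real.log T) ∧
      QQG g F ((h - ε) * Real.log T) U1 U2 ≤ (H * Real.log T / (2 * Real.pi)) *
        (cR R (h - ε) + η)

/-- T13: the main theorem -/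
def MainShort : Prop := ∀ F : ℂ → ℂ, GoodL F → ∀ h ε : ℝ, 0 < h → h ≤ 1 → 0 < ε →
    ∃ T0 : ℝ, 1 ≤ T0 ∧ ∀ T : ℝ, T0 ≤ T → ∀ H : ℝ, T ^ h ≤ H → H ≤ T →
      (2 - cc h - ε) * (NN F T (T + H) : ℝ) ≤ (Ns F T (T + H) : ℝ) ∧
      ((3 - cc h) / 2 - ε) * (NN F T (T + H) : ℝ) ≤ (Nd F T (T + H) : ℝ)

end H295SI
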