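import Pool.Agent.H295R2.SI.Main
import Pool.Agent.H370R2.Final
import Pool.Agent.H370R2.DirGood

/-! Consequences of the short interval theorem for zeta and Dirichlet L-functions. -/

open Filter Topology

namespace H295SI

lemma sin_sub_nonneg {x : ℝ} (h0 : 0 ≤ x) (h1 : x ≤ 1) : x * Real.cos x ≤ Real.sin x := by
  rcases h0.eq_or_lt with rfl | h0
  · simp
  have hpi := Real.pi_gt_three
  have h2 := Real.lt_tan h0 (by linarith)
  have hc : 0 < Real.cos x := Real.cos_pos_of_mem_Ioo ⟨by linarith, by linarith⟩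
  rw [Real.tan_eq_sin_div_cos, lt_div_iff₀ hc] at h2
  exact h2.le

lemma cot_aux {x : ℝ} (h0 : 0 ≤ x) (h1 : x ≤ 1) :
    x * Real.cos x ≤ (1 - x ^ 2 / 3) * Real.sin x := by
  have hmono : MonotoneOn (fun x : ℝ => (1 - x ^ 2 / 3) * Real.sin x - x * Real.cos x)
      (Set.Icc 0 1) := by
    have hd : ∀ x : ℝ, HasDerivAt (fun x : ℝ => (1 - x ^ 2 / 3) * Real.sin x - x * Real.cos x)
        (x / 3 * (Real.sin x - x * Real.cos x)) x := by
      intro x
      have h1 : HasDerivAt (fun x : ℝ => 1 - x ^ 2 / 3) (-(2 * x / 3)) x := by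
        have := ((hasDerivAt_id x).fun_pow 2).div_const 3
        have h2 := this.const_sub 1
        refine h2.congr_deriv ?_
        simp
      have h3 := (h1.mul (Real.hasDerivAt_sin x)).sub ((hasDerivAt_id x).mul (Real.hasDerivAt_cos x))
      refine h3.congr_deriv ?_
      simp only [id]
      ring
    apply monotoneOn_of_deriv_nonneg (convex_Icc 0 1)
    · exact fun x _ => (hd x).continuousAt.continuousWithinAt
    · exact fun x _ => (hd x).differentiableAt.differentiableWithinAt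
    · intro x hx
      rw [interior_Icc] at hx
      rw [(hd x).deriv]
      have := sin_sub_nonneg hx.1.le hx.2.le
      have h3 := hx.1
      apply mul_nonneg (by linarith) (by linarith)
  have h2 := hmono (show (0 : ℝ) ∈ Set.Icc (0 : ℝ) 1 by simp) (show x ∈ Set.Icc (0 : ℝ) 1 from ⟨h0, h1⟩) h0
  simp only at h2
  norm_num at h2
  linarith

/-- `c(h) ≤ 1/h + h/3` -/
theorem cc_le (h : ℝ) (h0 : 0 < h) (h1 : h ≤ 1) : cc h ≤ 1 / h + h / 3 := by
  have hs : (0 : ℝ) < Real.sqrt 2 := by positivity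
  have hs2 : Real.sqrt 2 ^ 2 = 2 := Real.sq_sqrt (by norm_num)
  have hs1 : 1 < Real.sqrt 2 := Real.one_lt_sqrt_two
  set x := h / Real.sqrt 2 with hx
  have hx0 : 0 < x := by positivity
  have hx1 : x ≤ 1 := by
    rw [hx, div_le_one hs]; linarith
  have hpi := Real.pi_gt_three
  have hsin : 0 < Real.sin x := Real.sin_pos_of_pos_of_lt_pi hx0 (by linarith)
  have h2 := cot_aux hx0.le hx1
  have h3 : Real.cot x ≤ (1 - x ^ 2 / 3) / x := by
    rw [Real.cot_eq_cos_div_sin, div_le_div_iff₀ hsin hx0]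
    linarith
  unfold cc
  rw [← hx]
  have h4 : Real.cot x / Real.sqrt 2 ≤ (1 - x ^ 2 / 3) / x / Real.sqrt 2 :=
    div_le_div_of_nonneg_right h3 hs.le
  have h5 : (1 - x ^ 2 / 3) / x / Real.sqrt 2 = 1 / h - h / 6 := by
    rw [hx, div_pow, hs2]
    field_simp
    ring
  linarith

end H295SI
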